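import Pool.Agent.N600.G3.Stm

/-!
Project G3, part ENT3: chain rule with `K` steps (helper99).
-/

set_option autoImplicit false

universe u

namespace Pool.Agent.N99.G3

open Pool.Agent.N600.G3

/-- the last coordinate separated -/
def sEquiv (K : ℕ) (B : Type) : (Fin K → B) × B ≃ (Fin (K + 1) → B) where
  toFun p := Fin.snoc (α := fun _ => B) p.1 p.2
  invFun f := (Fin.init f, f (Fin.last K))
  left_inv p := by simp
  right_inv f := by simp

theorem sEquiv_apply (K : ℕ) (B : Type) (d : Fin K → B) (x : B) :
    sEquiv K B (d, x) = Fin.snoc (α := fun _ => B) d x := rfl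

/-- ENT3 -/
theorem t_ent3 (h1 : S_ENT1.{u}) : S_ENT3.{u} := by
  intro K
  induction K with
  | zero =>
    intro B Z _ _ X _
    have h2 : ∀ δ : Fin 0 → B, Nat.card {δ' : Fin 0 → B // X δ' = X δ} = 1 := by
      intro δ
      rw [Nat.card_eq_one_iff_unique]
      exact ⟨⟨fun a b => Subtype.ext (Subsingleton.elim _ _)⟩, ⟨⟨δ, rfl⟩⟩⟩
    simp only [h2]
    simp
  | succ K ih =>
    intro B Z _ hB X htri
    obtain ⟨b0⟩ := id hB
    set f : (Fin K → B) → (Fin K → Z) :=
      fun d k => X (Fin.snoc (α := fun _ => B) d b0) k.castSucc with hf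
    set g : (Fin K → B) → B → Z :=
      fun d x => X (Fin.snoc (α := fun _ => B) d x) (Fin.last K) with hg
    have hX : ∀ (d d' : Fin K → B) (x x' : B) (k : Fin K), (∀ i ≤ k, d i = d' i) →
        X (Fin.snoc (α := fun _ => B) d x) k.castSucc =
          X (Fin.snoc (α := fun _ => B) d' x') k.castSucc := by
      intro d d' x x' k h
      apply htri
      intro i hi
      have hlt : i < Fin.last K := lt_of_le_of_lt hi (Fin.castSucc_lt_last k)
      obtain ⟨i', rfl⟩ : ∃ i' : Fin K, i = i'.castSucc :=
        ⟨i.castPred hlt.ne, (Fin.castSucc_castPred i hlt.ne).symm⟩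
      rw [Fin.snoc_castSucc, Fin.snoc_castSucc]
      exact h i' (Fin.castSucc_le_castSucc_iff.1 hi)
    have hXf : ∀ (d : Fin K → B) (x : B) (k : Fin K),
        X (Fin.snoc (α := fun _ => B) d x) k.castSucc = f d k :=
      fun d x k => hX d d x b0 k fun _ _ => rfl
    have hiff : ∀ (d e : Fin K → B) (x y : B),
        X (Fin.snoc (α := fun _ => B) d x) = X (Fin.snoc (α := fun _ => B) e y) ↔
          f d = f e ∧ g d x = g e y := by
      intro d e x y
      constructor
      · intro h
        refine ⟨?_, congrFun h _⟩
        funext k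
        rw [← hXf d x k, ← hXf e y k, h]
      · rintro ⟨h2, h3⟩
        funext k
        refine Fin.lastCases ?_ (fun k => ?_) k
        · exact h3
        · rw [hXf, hXf, h2]
    -- the left side
    have hL : ∑ δ : Fin (K + 1) → B, Real.log (Nat.card {δ' : Fin (K + 1) → B // X δ' = X δ}) =
        ∑ d : Fin K → B, ∑ x : B,
          Real.log (Nat.card {p : (Fin K → B) × B // f p.1 = f d ∧ g p.1 p.2 = g d x}) := by
      rw [← Equiv.sum_comp (sEquiv K B), Fintype.sum_prod_type]
      refine Finset.sum_congr rfl fun d _ => Finset.sum_congr rfl fun x _ => ?_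
      congr 2
      refine (Nat.card_congr ((sEquiv K B).subtypeEquiv ?_)).symm
      rintro ⟨e, y⟩
      rw [sEquiv_apply, sEquiv_apply]
      exact (hiff e d y x).symm
    -- the right side
    have hT : ∀ (d : Fin K → B) (x : B) (k : Fin K),
        Nat.card {x' : B // X (Function.update (Fin.snoc (α := fun _ => B) d x) k.castSucc x')
          k.castSucc = X (Fin.snoc (α := fun _ => B) d x) k.castSucc} =
        Nat.card {x' : B // f (Function.update d k x') k = f d k} := by
      intro d x k
      refine Nat.card_congr (Equiv.subtypeEquivRight fun x' => ?_)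
      rw [← Fin.snoc_update, hXf, hXf]
    have hTl : ∀ (d : Fin K → B) (x : B),
        Nat.card {x' : B // X (Function.update (Fin.snoc (α := fun _ => B) d x) (Fin.last K) x')
          (Fin.last K) = X (Fin.snoc (α := fun _ => B) d x) (Fin.last K)} =
        Nat.card {x' : B // g d x' = g d x} := by
      intro d x
      refine Nat.card_congr (Equiv.subtypeEquivRight fun x' => ?_)
      rw [Fin.update_snoc_last]
    have hR : ∑ δ : Fin (K + 1) → B, ∑ k : Fin (K + 1),
          Real.log (Nat.card {x : B // X (Function.update δ k x) k = X δ k}) =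
        (Fintype.card B : ℝ) * (∑ d : Fin K → B, ∑ k : Fin K,
          Real.log (Nat.card {x : B // f (Function.update d k x) k = f d k})) +
        ∑ d : Fin K → B, ∑ x : B, Real.log (Nat.card {x' : B // g d x' = g d x}) := by
      rw [← Equiv.sum_comp (sEquiv K B), Fintype.sum_prod_type, Finset.mul_sum,
        ← Finset.sum_add_distrib]
      refine Finset.sum_congr rfl fun d _ => ?_
      have h3 : ∀ x : B, ∑ k : Fin (K + 1), Real.log (Nat.card {x' : B //
          X (Function.update (sEquiv K B (d, x)) k x') k = X (sEquiv K B (d, x)) k}) =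
          (∑ k : Fin K, Real.log (Nat.card {x : B // f (Function.update d k x) k = f d k})) +
            Real.log (Nat.card {x' : B // g d x' = g d x}) := by
        intro x
        rw [sEquiv_apply, Fin.sum_univ_castSucc, hTl]
        congr 1
        refine Finset.sum_congr rfl fun k _ => ?_
        rw [hT]
      rw [Finset.sum_congr rfl fun x _ => h3 x, Finset.sum_add_distrib, Finset.sum_const,
        Finset.card_univ, nsmul_eq_mul]
    have hih := ih B Z f (fun k δ δ' h => hX δ δ' b0 b0 k h)
    have h2 := h1 (Fin K → B) B (Fin K → Z) Z f g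
    rw [hL, hR]
    refine h2.trans (add_le_add (mul_le_mul_of_nonneg_left hih (Nat.cast_nonneg _)) le_rfl)

end Pool.Agent.N99.G3
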